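import Mathlib
import Pool.Agent.Helper93.ET.St

set_option autoImplicit false

/-!
# ET module BAS: the monomial basis of the algebra with relations `X_j ^ q = ∑ X_i G_ij`
-/

namespace Pool.Agent.Helper24.ET

open MvPolynomial Pool.Agent.Helper93.ET

noncomputable section

variable {A : Type} [CommRing A] {n : ℕ}

/-- the relation polynomials -/
def u (q : ℕ) (G : Matrix (Fin n) (Fin n) A) (j : Fin n) : MvPolynomial (Fin n) A :=
  X j ^ q - ∑ i, C (G i j) * X i

/-- polynomials of degree less than `d` -/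
def L (A : Type) [CommRing A] (n d : ℕ) : Submodule A (MvPolynomial (Fin n) A) :=
  Submodule.span A ((fun m : Fin n →₀ ℕ => monomial m (1 : A)) '' {m | m.degree < d})

theorem L_mono {d e : ℕ} (h : d ≤ e) : L A n d ≤ L A n e :=
  Submodule.span_mono (Set.image_mono fun _ hm => lt_of_lt_of_le hm h)

theorem L_zero : L A n 0 = ⊥ := by
  unfold L
  simp

theorem mon_mem {d : ℕ} {m : Fin n →₀ ℕ} (a : A) (h : m.degree < d) :
    monomial m a ∈ L A n d := by
  have h1 : monomial m a = a • monomial m (1 : A) := by rw [smul_monomial, smul_eq_mul, mul_one]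
  rw [h1]
  exact Submodule.smul_mem _ _ (Submodule.subset_span ⟨m, h, rfl⟩)

theorem L_mul {a b : ℕ} {f g : MvPolynomial (Fin n) A} (hf : f ∈ L A n a)
    (hg : g ∈ L A n (b + 1)) : f * g ∈ L A n (a + b) := by
  unfold L at hf
  induction hf using Submodule.span_induction with
  | mem x hx =>
    obtain ⟨m, hm, rfl⟩ := hx
    unfold L at hg
    induction hg using Submodule.span_induction with
    | mem y hy =>
      obtain ⟨k, hk, rfl⟩ := hy
      simp only [Set.mem_ofPred_eq] at hm hk
      simp only [monomial_mul, mul_one]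
      apply mon_mem
      rw [map_add]
      omega
    | zero => simp
    | add y z _ _ hy hz => rw [mul_add]; exact add_mem hy hz
    | smul c y _ hy => rw [mul_smul_comm]; exact Submodule.smul_mem _ _ hy
  | zero => simp
  | add y z _ _ hy hz => rw [add_mul]; exact add_mem hy hz
  | smul c y _ hy => rw [smul_mul_assoc]; exact Submodule.smul_mem _ _ hy

theorem exists_L (f : MvPolynomial (Fin n) A) : ∃ d, f ∈ L A n d := by
  induction f using MvPolynomial.monomial_add_induction_on with
  | C a => exact ⟨1, by rw [← monomial_zero']; exact mon_mem a (by simp)⟩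
  | monomial_add m b f _ _ ih =>
    obtain ⟨d, hd⟩ := ih
    refine ⟨max (m.degree + 1) d, add_mem (mon_mem b (by omega)) (L_mono (le_max_right _ _) hd)⟩

/-- `f` has the leading monomial `m` -/
def Lead (f : MvPolynomial (Fin n) A) (m : Fin n →₀ ℕ) : Prop :=
  f - monomial m 1 ∈ L A n m.degree

theorem Lead.one : Lead (1 : MvPolynomial (Fin n) A) 0 := by
  unfold Lead
  have : (1 : MvPolynomial (Fin n) A) - monomial 0 1 = 0 := by simp
  rw [this]
  exact zero_mem _

theorem Lead.mul {f g : MvPolynomial (Fin n) A} {m k : Fin n →₀ ℕ} (hf : Lead f m)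
    (hg : Lead g k) : Lead (f * g) (m + k) := by
  unfold Lead at *
  have h1 : f * g - monomial (m + k) 1 =
      (f - monomial m 1) * g + (g - monomial k 1) * monomial m 1 := by
    have : (monomial (m + k) 1 : MvPolynomial (Fin n) A) = monomial m 1 * monomial k 1 := by
      rw [monomial_mul, one_mul]
    rw [this]; ring
  rw [h1, map_add]
  have hg' : g ∈ L A n (k.degree + 1) := by
    have : g = (g - monomial k 1) + monomial k 1 := by ring
    rw [this]
    exact add_mem (L_mono (Nat.le_succ _) hg) (mon_mem _ (Nat.lt_succ_self _))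
  refine add_mem (L_mul hf hg') ?_
  rw [add_comm]
  exact L_mul hg (mon_mem _ (Nat.lt_succ_self _))

theorem Lead.pow {f : MvPolynomial (Fin n) A} {m : Fin n →₀ ℕ} (hf : Lead f m) (k : ℕ) :
    Lead (f ^ k) (k • m) := by
  induction k with
  | zero => simpa using Lead.one
  | succ k ih => rw [pow_succ, succ_nsmul]; exact ih.mul hf

theorem Lead.prod {ι : Type} (s : Finset ι) (f : ι → MvPolynomial (Fin n) A)
    (m : ι → Fin n →₀ ℕ) (h : ∀ i ∈ s, Lead (f i) (m i)) :
    Lead (∏ i ∈ s, f i) (∑ i ∈ s, m i) := by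
  classical
  induction s using Finset.induction_on with
  | empty => simpa using Lead.one
  | insert a s ha ih =>
    rw [Finset.prod_insert ha, Finset.sum_insert ha]
    exact (h a (by simp)).mul (ih fun i hi => h i (by simp [hi]))

theorem Lead.X (j : Fin n) : Lead (X j : MvPolynomial (Fin n) A) (Finsupp.single j 1) := by
  unfold Lead
  have : (MvPolynomial.X j : MvPolynomial (Fin n) A) - monomial (Finsupp.single j 1) 1 = 0 := by
    rw [MvPolynomial.X, sub_self]
  rw [this]
  exact zero_mem _

theorem lead_u {q : ℕ} (hq : 2 ≤ q) (G : Matrix (Fin n) (Fin n) A) (j : Fin n) :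
    Lead (u q G j) (Finsupp.single j q) := by
  unfold Lead u
  rw [X_pow_eq_monomial, sub_sub_cancel_left]
  refine neg_mem (sum_mem fun i _ => ?_)
  rw [C_mul_X_eq_monomial]
  apply mon_mem
  simp only [Finsupp.degree_single]
  omega

/-- image of a monomial -/
def w (q : ℕ) (G : Matrix (Fin n) (Fin n) A) (m : Fin n →₀ ℕ) : MvPolynomial (Fin n) A :=
  ∏ j, (u q G j ^ (m j / q) * X j ^ (m j % q))

theorem lead_w {q : ℕ} (hq : 2 ≤ q) (G : Matrix (Fin n) (Fin n) A) (m : Fin n →₀ ℕ) :
    Lead (w q G m) m := by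
  have h1 : m = ∑ j, ((m j / q) • Finsupp.single j q + (m j % q) • Finsupp.single j 1) := by
    ext i
    simp only [Finsupp.coe_finsetSum, Finset.sum_apply, Finsupp.add_apply, Finsupp.smul_apply,
      smul_eq_mul, Finsupp.single_apply]
    rw [Finset.sum_eq_single i]
    · simp only [if_true]
      have := Nat.div_add_mod (m i) q
      rw [mul_comm] at this
      omega
    · intro b _ hb
      simp [hb]
    · simp
  have h2 : Lead (w q G m)
      (∑ j, ((m j / q) • Finsupp.single j q + (m j % q) • Finsupp.single j 1)) :=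
    Lead.prod _ _ _ fun j _ => ((lead_u hq G j).pow _).mul ((Lead.X j).pow _)
  rw [← h1] at h2
  exact h2

/-- the unipotent map -/
def Phi (q : ℕ) (G : Matrix (Fin n) (Fin n) A) :
    MvPolynomial (Fin n) A →ₗ[A] MvPolynomial (Fin n) A :=
  (basisMonomials (Fin n) A).constr A (w q G)

theorem Phi_mon (q : ℕ) (G : Matrix (Fin n) (Fin n) A) (m : Fin n →₀ ℕ) :
    Phi q G (monomial m 1) = w q G m := by
  have := (basisMonomials (Fin n) A).constr_basis A (w q G) m
  rwa [coe_basisMonomials] at this

theorem Phi_sub {q : ℕ} (hq : 2 ≤ q) (G : Matrix (Fin n) (Fin n) A) (d : ℕ)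
    (f : MvPolynomial (Fin n) A) (hf : f ∈ L A n (d + 1)) : Phi q G f - f ∈ L A n d := by
  unfold L at hf
  induction hf using Submodule.span_induction with
  | mem x hx =>
    obtain ⟨m, hm, rfl⟩ := hx
    simp only [Phi_mon]
    exact L_mono (Nat.lt_succ_iff.1 hm) (lead_w hq G m)
  | zero => simp
  | add y z _ _ hy hz =>
    have : Phi q G (y + z) - (y + z) = (Phi q G y - y) + (Phi q G z - z) := by
      rw [map_add]; ring
    rw [this]; exact add_mem hy hz
  | smul c y _ hy =>
    rw [map_smul, ← smul_sub]; exact Submodule.smul_mem _ _ hy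

theorem Phi_inj {q : ℕ} (hq : 2 ≤ q) (G : Matrix (Fin n) (Fin n) A) :
    Function.Injective (Phi q G) := by
  rw [← LinearMap.ker_eq_bot, LinearMap.ker_eq_bot']
  intro f hf
  obtain ⟨d, hd⟩ := exists_L f
  induction d with
  | zero => rw [L_zero] at hd; exact (Submodule.mem_bot A).1 hd
  | succ d ih =>
    apply ih
    have := Phi_sub hq G d f hd
    rw [hf, zero_sub] at this
    simpa using neg_mem this

theorem Phi_surj {q : ℕ} (hq : 2 ≤ q) (G : Matrix (Fin n) (Fin n) A) :
    Function.Surjective (Phi q G) := by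
  intro f
  obtain ⟨d, hd⟩ := exists_L f
  induction d generalizing f with
  | zero => exact ⟨0, by rw [L_zero] at hd; rw [(Submodule.mem_bot A).1 hd, map_zero]⟩
  | succ d ih =>
    obtain ⟨r, hr⟩ := ih _ (Phi_sub hq G d f hd)
    exact ⟨f - r, by rw [map_sub, hr]; ring⟩

/-- the unipotent equivalence -/
def PhiE {q : ℕ} (hq : 2 ≤ q) (G : Matrix (Fin n) (Fin n) A) :
    MvPolynomial (Fin n) A ≃ₗ[A] MvPolynomial (Fin n) A :=
  LinearEquiv.ofBijective (Phi q G) ⟨Phi_inj hq G, Phi_surj hq G⟩

/-- the exponent as a function to `Fin q` -/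
def red {q : ℕ} (hq : 2 ≤ q) (m : Fin n →₀ ℕ) : Fin n → Fin q :=
  fun j => ⟨m j % q, Nat.mod_lt _ (by omega)⟩

open Classical in
/-- projection to the reduced monomials -/
def pr {q : ℕ} (hq : 2 ≤ q) : MvPolynomial (Fin n) A →ₗ[A] ((Fin n → Fin q) →₀ A) :=
  (basisMonomials (Fin n) A).constr A
    (fun m => if ∀ j, m j < q then Finsupp.single (red hq m) 1 else 0)

open Classical in
theorem pr_mon {q : ℕ} (hq : 2 ≤ q) (m : Fin n →₀ ℕ) :
    pr hq (monomial m (1 : A)) =
      if ∀ j, m j < q then Finsupp.single (red hq m) 1 else 0 := by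
  have := (basisMonomials (Fin n) A).constr_basis A
    (fun m => if ∀ j, m j < q then Finsupp.single (red hq m) (1 : A) else 0) m
  rwa [coe_basisMonomials] at this

theorem lin_ext {M : Type} [AddCommGroup M] [Module A M] (f g : MvPolynomial (Fin n) A →ₗ[A] M)
    (h : ∀ m : Fin n →₀ ℕ, f (monomial m 1) = g (monomial m 1)) : f = g := by
  apply (basisMonomials (Fin n) A).ext
  intro m
  rw [coe_basisMonomials]
  exact h m

theorem u_mul_Phi {q : ℕ} (hq : 2 ≤ q) (G : Matrix (Fin n) (Fin n) A) (j : Fin n)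
    (s : MvPolynomial (Fin n) A) : u q G j * Phi q G s = Phi q G (X j ^ q * s) := by
  have h : (LinearMap.mulLeft A (u q G j)).comp (Phi q G) =
      (Phi q G).comp (LinearMap.mulLeft A (X j ^ q)) := by
    apply lin_ext
    intro m
    simp only [LinearMap.comp_apply, LinearMap.mulLeft_apply, Phi_mon]
    rw [X_pow_eq_monomial, monomial_mul, one_mul, Phi_mon]
    unfold w
    rw [← Finset.mul_prod_erase Finset.univ _ (Finset.mem_univ j),
      ← Finset.mul_prod_erase Finset.univ _ (Finset.mem_univ j)]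
    have hq0 : 0 < q := by omega
    have e1 : (Finsupp.single j q + m) j = m j + q := by simp [add_comm]
    rw [e1, Nat.add_div_right _ hq0, Nat.add_mod_right, pow_succ]
    have e2 : ∀ x ∈ Finset.univ.erase j, (u q G x ^ ((Finsupp.single j q + m) x / q) *
        X x ^ ((Finsupp.single j q + m) x % q) : MvPolynomial (Fin n) A) =
        u q G x ^ (m x / q) * X x ^ (m x % q) := by
      intro x hx
      have hx' : x ≠ j := Finset.ne_of_mem_erase hx
      have : (Finsupp.single j q + m) x = m x := by
        simp [Ne.symm hx']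
      rw [this]
    rw [Finset.prod_congr rfl e2]
    ring
  exact LinearMap.congr_fun h s

theorem pr_X_pow {q : ℕ} (hq : 2 ≤ q) (j : Fin n) (s : MvPolynomial (Fin n) A) :
    pr hq (X j ^ q * s) = 0 := by
  classical
  have h : (pr hq).comp (LinearMap.mulLeft A (X j ^ q : MvPolynomial (Fin n) A)) = 0 := by
    apply lin_ext
    intro m
    simp only [LinearMap.comp_apply, LinearMap.mulLeft_apply, LinearMap.zero_apply]
    rw [X_pow_eq_monomial, monomial_mul, one_mul, pr_mon, if_neg]
    intro h
    have := h j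
    simp at this
  exact LinearMap.congr_fun h s

theorem w_red {q : ℕ} (G : Matrix (Fin n) (Fin n) A) (m : Fin n →₀ ℕ) (h : ∀ j, m j < q) :
    w q G m = monomial m 1 := by
  unfold w
  have : (monomial m (1 : A)) = ∏ j, X j ^ m j := by
    rw [monomial_eq, C_1, one_mul, Finsupp.prod_fintype _ _ (fun i => pow_zero _)]
  rw [this]
  refine Finset.prod_congr rfl fun j _ => ?_
  rw [Nat.div_eq_of_lt (h j), Nat.mod_eq_of_lt (h j), pow_zero, one_mul]

theorem w_mem {q : ℕ} (hq : 2 ≤ q) (G : Matrix (Fin n) (Fin n) A) (m : Fin n →₀ ℕ)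
    (h : ¬ ∀ j, m j < q) : w q G m ∈ relG q G := by
  push Not at h
  obtain ⟨j, hj⟩ := h
  have h1 : u q G j ∈ relG q G := Ideal.subset_span ⟨j, rfl⟩
  have h2 : u q G j ∣ w q G m := by
    refine Dvd.dvd.trans ?_ (Finset.dvd_prod_of_mem _ (Finset.mem_univ j))
    refine Dvd.dvd.mul_right (dvd_pow_self _ ?_) _
    have : 0 < m j / q := Nat.div_pos hj (by omega)
    omega
  exact Ideal.mem_of_dvd _ h2 h1

theorem hBAS : StBAS := by
  classical
  intro A _ n q hq G
  let psi : MvPolynomial (Fin n) A →ₗ[A] ((Fin n → Fin q) →₀ A) :=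
    (pr hq).comp (PhiE hq G).symm.toLinearMap
  have hpsi : ∀ s, psi (Phi q G s) = pr hq s := by
    intro s
    have : (PhiE hq G).symm (Phi q G s) = s := (PhiE hq G).symm_apply_apply s
    change pr hq ((PhiE hq G).symm (Phi q G s)) = pr hq s
    rw [this]
  -- the relations are killed
  have hker : (relG q G).restrictScalars A ≤ LinearMap.ker psi := by
    intro x hx
    have hx' : x ∈ relG q G := hx
    unfold relG at hx'
    rw [Ideal.mem_span_range_iff_exists_fun] at hx'
    obtain ⟨c, rfl⟩ := hx'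
    rw [LinearMap.mem_ker, map_sum]
    refine Finset.sum_eq_zero fun j _ => ?_
    obtain ⟨s, hs⟩ := Phi_surj hq G (c j)
    rw [← hs, mul_comm]
    change psi (u q G j * Phi q G s) = 0
    rw [u_mul_Phi hq, hpsi, pr_X_pow]
  let F : EG q G →ₗ[A] ((Fin n → Fin q) →₀ A) :=
    (Submodule.liftQ ((relG q G).restrictScalars A) psi hker).comp
      (Submodule.Quotient.restrictScalarsEquiv A (relG q G)).symm.toLinearMap
  let mk : MvPolynomial (Fin n) A →ₗ[A] EG q G := (Ideal.Quotient.mkₐ A (relG q G)).toLinearMap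
  have hF : ∀ s, F (mk s) = psi s := fun s => rfl
  let ex : (Fin n → Fin q) → (Fin n →₀ ℕ) := fun α =>
    Finsupp.equivFunOnFinite.symm (fun j => (α j : ℕ))
  have hex : ∀ α j, ex α j = (α j : ℕ) := fun α j => rfl
  have hexr : ∀ m : Fin n →₀ ℕ, (∀ j, m j < q) → ex (red hq m) = m := by
    intro m hm
    ext j
    rw [hex]
    exact Nat.mod_eq_of_lt (hm j)
  have hrex : ∀ α, red hq (ex α) = α := by
    intro α
    funext j
    apply Fin.ext
    change ex α j % q = _
    rw [hex]
    exact Nat.mod_eq_of_lt (α j).2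
  have hexlt : ∀ α j, ex α j < q := fun α j => by rw [hex]; exact (α j).2
  let Gm : ((Fin n → Fin q) →₀ A) →ₗ[A] EG q G :=
    Finsupp.linearCombination A (fun α => mk (monomial (ex α) 1))
  have h1 : F.comp Gm = LinearMap.id := by
    apply Finsupp.lhom_ext'
    intro α
    apply LinearMap.ext_ring
    simp only [LinearMap.comp_apply, Finsupp.lsingle_apply, LinearMap.id_apply]
    have e1 : Gm (Finsupp.single α 1) = mk (monomial (ex α) 1) := by
      simp only [Gm, Finsupp.linearCombination_single, one_smul]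
    rw [e1, hF]
    have e2 : Phi q G (monomial (ex α) 1) = monomial (ex α) 1 := by
      rw [Phi_mon, w_red G _ (hexlt α)]
    rw [← e2, hpsi, pr_mon, if_pos (hexlt α), hrex]
  have h2 : Gm.comp (pr hq) = mk.comp (Phi q G) := by
    apply lin_ext
    intro m
    simp only [LinearMap.comp_apply, Phi_mon, pr_mon]
    by_cases hm : ∀ j, m j < q
    · rw [if_pos hm, w_red G m hm]
      simp only [Gm, Finsupp.linearCombination_single, one_smul]
      rw [hexr m hm]
    · rw [if_neg hm, map_zero]
      symm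
      exact Ideal.Quotient.eq_zero_iff_mem.2 (w_mem hq G m hm)
  have h3 : Gm.comp F = LinearMap.id := by
    refine LinearMap.ext fun x => ?_
    have hmk : ∃ f, mk f = x := Ideal.Quotient.mk_surjective x
    obtain ⟨f, rfl⟩ := hmk
    obtain ⟨s, rfl⟩ := Phi_surj hq G f
    rw [LinearMap.comp_apply, hF, hpsi, LinearMap.id_apply]
    exact LinearMap.congr_fun h2 s
  exact ⟨Module.Basis.ofRepr (LinearEquiv.ofLinearMap F Gm h1 h3)⟩

end

end Pool.Agent.Helper24.ET
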